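import Pool.Agent.Q160.SG.Stm

/-!
Expansion of `F` along the levels.
-/

namespace Pool.Agent.Q160.SG

open Finset

def Lq (i : ℕ) (q : Finset ℤ) : Finset ℤ := insert (-((i : ℤ) + 1)) (dropMax q)

def Rq (i : ℕ) (q : Finset ℤ) : Finset ℤ := insert ((i : ℤ) + 1) (dropMin q)

theorem expandF (hV : J_V) (hD : J_DROP) (hP : J_PEEL) (z r m : ℕ) (c : Finset ℤ → ℤ) :
    F r c (V z m) = ∑ i ∈ range m,
      (∑ q ∈ (V z i).powersetCard (r + 1), c q * (c (Lq i q) + c (Rq i q)) +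
        ∑ q ∈ (V z i).powersetCard r,
          c (insert (-((i : ℤ) + 1)) q) * c (insert ((i : ℤ) + 1) q)) := by
  unfold F
  rw [hP z r m (fun K => c (dropMax K) * c (dropMin K))]
  apply sum_congr rfl
  intro i _
  congr 1
  · apply sum_congr rfl
    intro q hq
    rw [mem_powersetCard] at hq
    have hqb : ∀ x ∈ q, |x| ≤ (i : ℤ) := fun x hx => hV.2.2.1 z i x (hq.1 hx)
    have hne : q.Nonempty := by
      rw [← card_pos, hq.2]; omega
    obtain ⟨h1, h2, h3, h4, -, -⟩ := hD i q hqb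
    rw [h1, h2, h3 hne, h4 hne]
    unfold Lq Rq
    ring
  · apply sum_congr rfl
    intro q hq
    rw [mem_powersetCard] at hq
    have hqb : ∀ x ∈ q, |x| ≤ (i : ℤ) := fun x hx => hV.2.2.1 z i x (hq.1 hx)
    obtain ⟨-, -, -, -, h5, h6⟩ := hD i q hqb
    rw [h5, h6]

theorem expandFF (hV : J_V) (hD : J_DROP) (hP : J_PEEL) (z r m : ℕ) (c : Finset ℤ → ℤ) :
    F (r + 1) c (V z m) = ∑ j ∈ range m,
      (∑ i ∈ range j,
        (∑ q ∈ (V z i).powersetCard (r + 1),
          (c (insert (-((i : ℤ) + 1)) q) *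
              (c (insert (-((j : ℤ) + 1)) (Lq i q)) + c (insert ((j : ℤ) + 1) q)) +
            c (insert ((i : ℤ) + 1) q) *
              (c (insert (-((j : ℤ) + 1)) q) + c (insert ((j : ℤ) + 1) (Rq i q)))) +
        ∑ q ∈ (V z i).powersetCard r,
          c (insert (-((i : ℤ) + 1)) (insert ((i : ℤ) + 1) q)) *
            (c (insert (-((j : ℤ) + 1)) (insert (-((i : ℤ) + 1)) q)) +
              c (insert ((j : ℤ) + 1) (insert ((i : ℤ) + 1) q)))) +
      ∑ q ∈ (V z j).powersetCard (r + 1),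
        c (insert (-((j : ℤ) + 1)) q) * c (insert ((j : ℤ) + 1) q)) := by
  rw [expandF hV hD hP z (r + 1) m c]
  apply sum_congr rfl
  intro j _
  congr 1
  rw [hP z r j (fun K => c K * (c (Lq j K) + c (Rq j K)))]
  apply sum_congr rfl
  intro i _
  congr 1
  · apply sum_congr rfl
    intro q hq
    rw [mem_powersetCard] at hq
    have hqb : ∀ x ∈ q, |x| ≤ (i : ℤ) := fun x hx => hV.2.2.1 z i x (hq.1 hx)
    have hne : q.Nonempty := by
      rw [← card_pos, hq.2]; omega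
    obtain ⟨h1, h2, h3, h4, -, -⟩ := hD i q hqb
    unfold Lq Rq
    rw [h1, h2, h3 hne, h4 hne]
  · apply sum_congr rfl
    intro q hq
    rw [mem_powersetCard] at hq
    have hqb : ∀ x ∈ q, |x| ≤ (i : ℤ) := fun x hx => hV.2.2.1 z i x (hq.1 hx)
    obtain ⟨-, -, -, -, h5, h6⟩ := hD i q hqb
    unfold Lq Rq
    rw [h5, h6]

/-- radius of a set of integers -/
def rad (q : Finset ℤ) : ℕ := q.sup Int.natAbs

theorem rad_le {q : Finset ℤ} {i : ℕ} : rad q ≤ i ↔ ∀ x ∈ q, |x| ≤ (i : ℤ) := by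
  unfold rad
  rw [Finset.sup_le_iff]
  apply forall₂_congr
  intro x _
  rw [Int.abs_eq_natAbs]
  norm_cast

theorem sub_iff {z i m : ℕ} (him : i ≤ m) {q : Finset ℤ} (hq : q ⊆ V z m) :
    q ⊆ V z i ↔ rad q ≤ i := by
  rw [rad_le]
  constructor
  · intro h x hx
    have := h hx
    unfold V at this
    rw [mem_filter, mem_Icc] at this
    rw [abs_le]
    exact this.1
  · intro h x hx
    have h1 := hq hx
    have h2 := h x hx
    unfold V at h1 ⊢
    rw [mem_filter, mem_Icc] at h1 ⊢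
    rw [abs_le] at h2
    exact ⟨h2, h1.2⟩

theorem C_eq (hV : J_V) {z i m s : ℕ} (him : i ≤ m) :
    (V z i).powersetCard s = ((V z m).powersetCard s).filter (fun q => rad q ≤ i) := by
  ext q
  rw [mem_filter, mem_powersetCard, mem_powersetCard]
  constructor
  · intro ⟨h1, h2⟩
    have h3 : q ⊆ V z m := h1.trans (hV.2.2.2.2 z i m him)
    exact ⟨⟨h3, h2⟩, (sub_iff him h3).1 h1⟩
  · intro ⟨⟨h1, h2⟩, h3⟩
    exact ⟨(sub_iff him h1).2 h3, h2⟩

theorem range_if (a n : ℕ) (h : ℕ → ℤ) :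
    ∑ i ∈ range n, (if a ≤ i then h i else 0) = ∑ i ∈ Ico a n, h i := by
  rw [← sum_filter]
  apply sum_congr _ (fun _ _ => rfl)
  ext i
  rw [mem_filter, mem_range, mem_Ico]
  tauto

theorem swap1 (hV : J_V) (z s m : ℕ) (h : ℕ → Finset ℤ → ℤ) :
    ∑ i ∈ range m, ∑ q ∈ (V z i).powersetCard s, h i q =
      ∑ q ∈ (V z m).powersetCard s, ∑ i ∈ Ico (rad q) m, h i q := by
  have h1 : ∀ i ∈ range m, ∑ q ∈ (V z i).powersetCard s, h i q =
      ∑ q ∈ (V z m).powersetCard s, if rad q ≤ i then h i q else 0 := by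
    intro i hi
    rw [mem_range] at hi
    rw [C_eq hV hi.le, sum_filter]
  rw [sum_congr rfl h1, sum_comm]
  apply sum_congr rfl
  intro q _
  rw [range_if]

theorem swap2 (hV : J_V) (z s m : ℕ) (h : ℕ → ℕ → Finset ℤ → ℤ) :
    ∑ j ∈ range m, ∑ i ∈ range j, ∑ q ∈ (V z i).powersetCard s, h i j q =
      ∑ q ∈ (V z m).powersetCard s, ∑ j ∈ Ico (rad q) m, ∑ i ∈ Ico (rad q) j, h i j q := by
  have h1 : ∀ j ∈ range m, ∑ i ∈ range j, ∑ q ∈ (V z i).powersetCard s, h i j q =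
      ∑ q ∈ (V z m).powersetCard s, ∑ i ∈ Ico (rad q) j, h i j q := by
    intro j hj
    rw [mem_range] at hj
    have h2 : ∀ i ∈ range j, ∑ q ∈ (V z i).powersetCard s, h i j q =
        ∑ q ∈ (V z m).powersetCard s, if rad q ≤ i then h i j q else 0 := by
      intro i hi
      rw [mem_range] at hi
      rw [C_eq hV (hi.trans hj).le, sum_filter]
    rw [sum_congr rfl h2, sum_comm]
    apply sum_congr rfl
    intro q _
    rw [range_if]
  rw [sum_congr rfl h1, sum_comm]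
  apply sum_congr rfl
  intro q _
  rw [← range_if]
  apply sum_congr rfl
  intro j _
  by_cases hj : rad q ≤ j
  · rw [if_pos hj]
  · rw [if_neg hj, Ico_eq_empty (by omega), sum_empty]

end Pool.Agent.Q160.SG
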