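import Pool.Agent.Q160.SG.Main
import Pool.Agent.Q65.SG.Base
import Pool.Agent.Q275.SG.Transfer
import Pool.Agent.Q195.SG.COUNT
import Pool.Agent.Q31.SG.LOWER
import Pool.Agent.Q285.SG.Drop
import Pool.Agent.Q96.SG.Peel

/-!
The final statements, given the closed form of the bound.
-/

namespace Pool.Agent.Q160.SG

open Finset

theorem main : J_MAIN :=
  t_MAIN Pool.Agent.Q285.SG.t_V Pool.Agent.Q285.SG.t_DROP
    (Pool.Agent.Q96.SG.t_PEEL Pool.Agent.Q285.SG.t_V) Pool.Agent.Q96.SG.t_SEQ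
    Pool.Agent.Q65.SG.t_BASE

theorem boundF (hC : J_CLOSED) (α : Type) [LinearOrder α] (W : Finset α) (k : ℕ) (hk : 2 ≤ k)
    (c : Finset α → ℤ) (hc : ∀ K, |c K| ≤ 1) :
    2 * (((W.card / 2).choose k : ℕ) : ℤ) + 2 * ((((W.card + 1) / 2).choose k : ℕ) : ℤ)
      - ((W.card.choose k : ℕ) : ℤ) ≤ ∑ K ∈ W.powersetCard k, c (dropMax K) * c (dropMin K) := by
  obtain ⟨r, rfl⟩ : ∃ r, k = r + 2 := ⟨k - 2, by omega⟩
  exact Pool.Agent.Q275.SG.t_TRANSFER Pool.Agent.Q285.SG.t_V main hC α W r c hc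

theorem boundMono (hC : J_CLOSED) (α : Type) [LinearOrder α] (W : Finset α) (k : ℕ) (hk : 2 ≤ k)
    (c : Finset α → Bool) :
    (W.card / 2).choose k + ((W.card + 1) / 2).choose k ≤ (mono k c W).card := by
  have h1 := boundF hC α W k hk (fun K => if c K then 1 else -1)
    (fun K => by split_ifs <;> norm_num)
  obtain ⟨r, rfl⟩ : ∃ r, k = r + 2 := ⟨k - 2, by omega⟩
  have h2 := Pool.Agent.Q195.SG.t_COUNT α W r c
  unfold F at h2
  rw [h2] at h1
  have h3 : (((W.card / 2).choose (r + 2) + ((W.card + 1) / 2).choose (r + 2) : ℕ) : ℤ) ≤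
      ((mono (r + 2) c W).card : ℤ) := by
    push_cast
    linarith
  exact_mod_cast h3

/-- the members of H are k-sets whose two faces, K without its largest and K without its smallest
element, have different colours, for some colouring with two colours -/
def TwoColoured {α : Type} [LinearOrder α] (k : ℕ) (H : Finset (Finset α)) : Prop :=
  ∃ c : Finset α → Bool, ∀ K ∈ H, K.card = k ∧ c (dropMax K) ≠ c (dropMin K)

theorem free (hC : J_CLOSED) (α : Type) [LinearOrder α] (k : ℕ) (hk : 2 ≤ k)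
    (H : Finset (Finset α)) (hH : TwoColoured k H) (S : Finset α) (hS : S.card = 2 * k - 1) :
    ¬ S.powersetCard k ⊆ H := by
  intro hsub
  obtain ⟨c, hc⟩ := hH
  have h1 := boundMono hC α S k hk c
  have h2 : (S.card + 1) / 2 = k := by omega
  rw [h2, Nat.choose_self] at h1
  have h3 : 0 < (mono k c S).card := by omega
  obtain ⟨K, hK⟩ := card_pos.1 h3
  unfold mono at hK
  rw [mem_filter] at hK
  exact (hc K (hsub hK.1)).2 hK.2

theorem turan (hC : J_CLOSED) (α : Type) [LinearOrder α] (W : Finset α) (k : ℕ) (hk : 2 ≤ k)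
    (H : Finset (Finset α)) (hH : TwoColoured k H) (hW : ∀ K ∈ H, K ⊆ W) :
    H.card + (W.card / 2).choose k + ((W.card + 1) / 2).choose k ≤ W.card.choose k := by
  obtain ⟨c, hc⟩ := hH
  have h1 := boundMono hC α W k hk c
  have h2 : H ⊆ W.powersetCard k \ mono k c W := by
    intro K hK
    rw [mem_sdiff, mem_powersetCard]
    refine ⟨⟨hW K hK, (hc K hK).1⟩, fun h => (hc K hK).2 ?_⟩
    unfold mono at h
    exact (mem_filter.1 h).2
  have h3 := card_le_card h2
  have h4 : mono k c W ⊆ W.powersetCard k := filter_subset _ _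
  rw [card_sdiff_of_subset h4, card_powersetCard] at h3
  have h5 := card_le_card h4
  rw [card_powersetCard] at h5
  omega

theorem sharp (n k : ℕ) (hk : 2 ≤ k) : ∃ H : Finset (Finset (Fin n)), TwoColoured k H ∧
    H.card + (n / 2).choose k + ((n + 1) / 2).choose k = n.choose k := by
  obtain ⟨c, hc⟩ := Pool.Agent.Q31.SG.LOWER.t_LOWER n k hk
  refine ⟨(univ : Finset (Fin n)).powersetCard k \ mono k c univ, ⟨c, ?_⟩, ?_⟩
  · intro K hK
    rw [mem_sdiff, mem_powersetCard] at hK
    refine ⟨hK.1.2, fun h => hK.2 ?_⟩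
    unfold mono
    rw [mem_filter, mem_powersetCard]
    exact ⟨hK.1, h⟩
  · have h4 : mono k c univ ⊆ (univ : Finset (Fin n)).powersetCard k := filter_subset _ _
    rw [card_sdiff_of_subset h4, card_powersetCard]
    have h5 := card_le_card h4
    rw [card_powersetCard] at h5
    rw [Finset.card_univ, Fintype.card_fin] at h5 ⊢
    omega

end Pool.Agent.Q160.SG
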