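import Pool.Agent.Q160.SG.Step

/-!
The main bound on V z m.
-/

namespace Pool.Agent.Q160.SG

open Finset

theorem t_MAIN (hV : J_V) (hD : J_DROP) (hP : J_PEEL) (hS : J_SEQ) (hB : J_BASE) : J_MAIN := by
  intro z r m c hz hc
  induction r generalizing m c with
  | zero =>
    have h := hB ℤ (V z m) c hc
    rw [hV.1 z m hz] at h
    have h2 : (2 * m + z) / 2 = m := by omega
    rw [h2] at h
    exact h
  | succ r ih => exact step hV hD hP hS z r hz ih m c hc

end Pool.Agent.Q160.SG
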