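import Pool.Agent.Q160.SG.Expand

/-!
The induction step.
-/

namespace Pool.Agent.Q160.SG

open Finset

theorem swapij (m : ℕ) (f : ℕ → ℕ → ℤ) :
    ∑ j ∈ range m, ∑ i ∈ range j, f i j = ∑ i ∈ range m, ∑ j ∈ Ico (i + 1) m, f i j := by
  rw [Finset.sum_sigma', Finset.sum_sigma']
  apply Finset.sum_nbij' (fun x => ⟨x.2, x.1⟩) (fun x => ⟨x.2, x.1⟩)
  · intro x hx
    simp only [mem_sigma, mem_range, mem_Ico] at hx ⊢
    omega
  · intro x hx
    simp only [mem_sigma, mem_range, mem_Ico] at hx ⊢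
    omega
  · intro x _
    rfl
  · intro x _
    rfl
  · intro x _
    rfl

theorem repl (m : ℕ) (Q : ℕ → Finset (Finset ℤ)) (w : ℕ → Finset ℤ → ℤ)
    (u v : ℕ → ℕ → Finset ℤ → ℤ)
    (h : ∀ i < m, ∀ q ∈ Q i, ∑ j ∈ Ico (i + 1) m, u i j q = ∑ j ∈ Ico (i + 1) m, v i j q) :
    ∑ j ∈ range m, ∑ i ∈ range j, ∑ q ∈ Q i, w i q * u i j q =
      ∑ j ∈ range m, ∑ i ∈ range j, ∑ q ∈ Q i, w i q * v i j q := by
  rw [swapij, swapij]
  apply sum_congr rfl
  intro i hi
  rw [sum_comm, sum_comm (s := Ico (i + 1) m)]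
  apply sum_congr rfl
  intro q hq
  rw [← mul_sum, ← mul_sum, h i (mem_range.1 hi) q hq]

def am (c : Finset ℤ → ℤ) (i : ℕ) (q : Finset ℤ) : ℤ := c (insert (-((i : ℤ) + 1)) q)

def bm (c : Finset ℤ → ℤ) (i : ℕ) (q : Finset ℤ) : ℤ := -c (insert ((i : ℤ) + 1) q)

def Am (c : Finset ℤ → ℤ) (m : ℕ) (q : Finset ℤ) : ℤ := ∑ j ∈ Ico (rad q) m, am c j q

def Bm (c : Finset ℤ → ℤ) (m : ℕ) (q : Finset ℤ) : ℤ := ∑ j ∈ Ico (rad q) m, bm c j q

def Nm (c : Finset ℤ → ℤ) (m : ℕ) (q : Finset ℤ) : ℤ :=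
  if (rad q : ℤ) ∈ q then Bm c m q else Am c m q

def gm (c : Finset ℤ → ℤ) (m j : ℕ) (q : Finset ℤ) : ℤ := trunc m (Nm c m q) j

theorem abs_trunc (m : ℕ) (N : ℤ) (j : ℕ) : |trunc m N j| ≤ 1 := by
  unfold trunc
  split_ifs
  · rcases lt_trichotomy N 0 with h | h | h
    · rw [Int.sign_eq_neg_one_of_neg h]; norm_num
    · rw [h]; norm_num
    · rw [Int.sign_eq_one_of_pos h]; norm_num
  · norm_num

theorem rad_insert_neg {i : ℕ} {q : Finset ℤ} (hq : ∀ x ∈ q, |x| ≤ (i : ℤ)) :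
    rad (insert (-((i : ℤ) + 1)) q) = i + 1 := by
  apply le_antisymm
  · rw [rad_le]
    intro x hx
    rw [mem_insert] at hx
    rcases hx with h | h
    · rw [h, abs_neg, abs_of_nonneg (by positivity)]
      push_cast
      exact le_refl _
    · have := hq x h
      push_cast
      linarith
  · by_contra hlt
    have h1 : rad (insert (-((i : ℤ) + 1)) q) ≤ i := by omega
    rw [rad_le] at h1
    have h2 := h1 _ (mem_insert_self _ _)
    rw [abs_neg, abs_of_nonneg (by positivity)] at h2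
    linarith

theorem rad_insert_pos {i : ℕ} {q : Finset ℤ} (hq : ∀ x ∈ q, |x| ≤ (i : ℤ)) :
    rad (insert ((i : ℤ) + 1) q) = i + 1 := by
  apply le_antisymm
  · rw [rad_le]
    intro x hx
    rw [mem_insert] at hx
    rcases hx with h | h
    · rw [h, abs_of_nonneg (by positivity)]
      push_cast
      exact le_refl _
    · have := hq x h
      push_cast
      linarith
  · by_contra hlt
    have h1 : rad (insert ((i : ℤ) + 1) q) ≤ i := by omega
    rw [rad_le] at h1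
    have h2 := h1 _ (mem_insert_self _ _)
    rw [abs_of_nonneg (by positivity)] at h2
    linarith

theorem Nm_neg {i m : ℕ} {q : Finset ℤ} (hq : ∀ x ∈ q, |x| ≤ (i : ℤ)) (c : Finset ℤ → ℤ) :
    Nm c m (insert (-((i : ℤ) + 1)) q) =
      ∑ j ∈ Ico (i + 1) m, am c j (insert (-((i : ℤ) + 1)) q) := by
  unfold Nm
  rw [if_neg, Am, rad_insert_neg hq]
  rw [rad_insert_neg hq, mem_insert]
  rintro (h | h)
  · push_cast at h
    have : (0 : ℤ) ≤ i := by positivity
    linarith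
  · have := hq _ h
    push_cast at this
    rw [abs_of_nonneg (by positivity)] at this
    linarith

theorem Nm_pos {i m : ℕ} {q : Finset ℤ} (hq : ∀ x ∈ q, |x| ≤ (i : ℤ)) (c : Finset ℤ → ℤ) :
    Nm c m (insert ((i : ℤ) + 1) q) =
      ∑ j ∈ Ico (i + 1) m, bm c j (insert ((i : ℤ) + 1) q) := by
  unfold Nm
  rw [if_pos, Bm, rad_insert_pos hq]
  rw [rad_insert_pos hq, mem_insert]
  left
  push_cast
  rfl

theorem sum_neg (hS : J_SEQ) {c : Finset ℤ → ℤ} (hc : ∀ K, |c K| ≤ 1) {i m : ℕ} (him : i < m)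
    {q : Finset ℤ} (hq : ∀ x ∈ q, |x| ≤ (i : ℤ)) :
    ∑ j ∈ Ico (i + 1) m, am c j (insert (-((i : ℤ) + 1)) q) =
      ∑ j ∈ Ico (i + 1) m, gm c m j (insert (-((i : ℤ) + 1)) q) := by
  have h := (hS m (i + 1) (fun j => am c j (insert (-((i : ℤ) + 1)) q)) (fun _ => 0)
    (Nm c m (insert (-((i : ℤ) + 1)) q)) him (fun j => hc _) (fun j => by norm_num)
    (Or.inl (Nm_neg hq c))).1
  unfold gm
  rw [h, Nm_neg hq c]

theorem sum_pos (hS : J_SEQ) {c : Finset ℤ → ℤ} (hc : ∀ K, |c K| ≤ 1) {i m : ℕ} (him : i < m)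
    {q : Finset ℤ} (hq : ∀ x ∈ q, |x| ≤ (i : ℤ)) :
    ∑ j ∈ Ico (i + 1) m, bm c j (insert ((i : ℤ) + 1) q) =
      ∑ j ∈ Ico (i + 1) m, gm c m j (insert ((i : ℤ) + 1) q) := by
  have h := (hS m (i + 1) (fun _ => 0) (fun j => bm c j (insert ((i : ℤ) + 1) q))
    (Nm c m (insert ((i : ℤ) + 1) q)) him (fun j => by norm_num)
    (fun j => by unfold bm; rw [abs_neg]; exact hc _)
    (Or.inr (Nm_pos hq c))).1
  unfold gm
  rw [h, Nm_pos hq c]

/-- the pointwise inequality -/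
theorem pw1 {a g u : ℤ} (ha : |a| ≤ 1) (hg : |g| ≤ 1) (hu : |u| ≤ 1) :
    -(g * u) + 1 - a * g ≥ -(a * u) := by
  rw [abs_le] at ha hg hu
  obtain ⟨a1, a2⟩ := ha
  obtain ⟨g1, g2⟩ := hg
  obtain ⟨u1, u2⟩ := hu
  interval_cases a <;> interval_cases g <;> interval_cases u <;> norm_num

theorem pw2 {e u v : ℤ} (he : |e| ≤ 1) (hu : |u| ≤ 1) (hv : |v| ≤ 1) :
    -(u * v) + 1 ≥ -(e * (u - v)) := by
  rw [abs_le] at he hu hv
  obtain ⟨a1, a2⟩ := he
  obtain ⟨g1, g2⟩ := hu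
  obtain ⟨u1, u2⟩ := hv
  interval_cases e <;> interval_cases u <;> interval_cases v <;> norm_num

theorem dropMax_sub {q : Finset ℤ} {i : ℕ} (hq : ∀ x ∈ q, |x| ≤ (i : ℤ)) :
    ∀ x ∈ dropMax q, |x| ≤ (i : ℤ) := fun x hx => hq x (mem_filter.1 hx).1

theorem dropMin_sub {q : Finset ℤ} {i : ℕ} (hq : ∀ x ∈ q, |x| ≤ (i : ℤ)) :
    ∀ x ∈ dropMin q, |x| ≤ (i : ℤ) := fun x hx => hq x (mem_filter.1 hx).1

/-- the five parts of F (r+1) -/
theorem five (hV : J_V) (hD : J_DROP) (hP : J_PEEL) (z r m : ℕ) (c : Finset ℤ → ℤ) :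
    F (r + 1) c (V z m) =
      ∑ j ∈ range m, ∑ i ∈ range j, ∑ q ∈ (V z i).powersetCard (r + 1),
        am c i q * am c j (Lq i q) +
      ∑ j ∈ range m, ∑ i ∈ range j, ∑ q ∈ (V z i).powersetCard (r + 1),
        bm c i q * bm c j (Rq i q) +
      ∑ j ∈ range m, ∑ i ∈ range j, ∑ q ∈ (V z i).powersetCard r,
        c (insert (-((i : ℤ) + 1)) (insert ((i : ℤ) + 1) q)) *
          (am c j (insert (-((i : ℤ) + 1)) q) - bm c j (insert ((i : ℤ) + 1) q)) -
      (∑ j ∈ range m, ∑ i ∈ range j, ∑ q ∈ (V z i).powersetCard (r + 1),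
        (am c i q * bm c j q + bm c i q * am c j q) +
      ∑ j ∈ range m, ∑ q ∈ (V z j).powersetCard (r + 1), am c j q * bm c j q) := by
  rw [expandFF hV hD hP, ← sum_add_distrib, ← sum_add_distrib, ← sum_add_distrib,
    ← sum_sub_distrib]
  apply sum_congr rfl
  intro j _
  rw [← sum_add_distrib, ← sum_add_distrib]
  have e1 : ∀ (X Y X' Y' : ℤ) (Z : ℤ), X = X' - Z → Y = -Y' → X + Y = X' - (Z + Y') := by
    intro X Y X' Y' Z h1 h2
    rw [h1, h2]
    ring
  apply e1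
  · rw [← sum_sub_distrib]
    apply sum_congr rfl
    intro i _
    rw [← sum_add_distrib]
    have e2 : ∀ (X Y X' Z : ℤ), X = X' - Z → X + Y = X' + Y - Z := by
      intro X Y X' Z h1
      rw [h1]
      ring
    have e3 : ∑ q ∈ (V z i).powersetCard r,
        c (insert (-((i : ℤ) + 1)) (insert ((i : ℤ) + 1) q)) *
            (c (insert (-((j : ℤ) + 1)) (insert (-((i : ℤ) + 1)) q)) +
              c (insert ((j : ℤ) + 1) (insert ((i : ℤ) + 1) q))) =
      ∑ q ∈ (V z i).powersetCard r,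
        c (insert (-((i : ℤ) + 1)) (insert ((i : ℤ) + 1) q)) *
          (am c j (insert (-((i : ℤ) + 1)) q) - bm c j (insert ((i : ℤ) + 1) q)) := by
      apply sum_congr rfl
      intro q _
      unfold am bm
      ring
    rw [e3]
    apply e2
    rw [← sum_sub_distrib]
    apply sum_congr rfl
    intro q _
    unfold am bm
    ring
  · rw [← sum_neg_distrib]
    apply sum_congr rfl
    intro q _
    unfold am bm
    ring

theorem five' (hV : J_V) (hD : J_DROP) (hP : J_PEEL) (hS : J_SEQ) (z r m : ℕ)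
    (c : Finset ℤ → ℤ) (hc : ∀ K, |c K| ≤ 1) :
    F (r + 1) c (V z m) =
      ∑ j ∈ range m, ∑ i ∈ range j, ∑ q ∈ (V z i).powersetCard (r + 1),
        am c i q * gm c m j (Lq i q) +
      ∑ j ∈ range m, ∑ i ∈ range j, ∑ q ∈ (V z i).powersetCard (r + 1),
        bm c i q * gm c m j (Rq i q) +
      ∑ j ∈ range m, ∑ i ∈ range j, ∑ q ∈ (V z i).powersetCard r,
        c (insert (-((i : ℤ) + 1)) (insert ((i : ℤ) + 1) q)) *
          (gm c m j (insert (-((i : ℤ) + 1)) q) - gm c m j (insert ((i : ℤ) + 1) q)) -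
      (∑ j ∈ range m, ∑ i ∈ range j, ∑ q ∈ (V z i).powersetCard (r + 1),
        (am c i q * bm c j q + bm c i q * am c j q) +
      ∑ j ∈ range m, ∑ q ∈ (V z j).powersetCard (r + 1), am c j q * bm c j q) := by
  rw [five hV hD hP]
  have hb : ∀ (i s : ℕ) (q : Finset ℤ), q ∈ (V z i).powersetCard s → ∀ x ∈ q, |x| ≤ (i : ℤ) := by
    intro i s q hq x hx
    rw [mem_powersetCard] at hq
    exact hV.2.2.1 z i x (hq.1 hx)
  congr 1
  congr 1
  · congr 1
    · apply repl m (fun i => (V z i).powersetCard (r + 1)) (fun i q => am c i q)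
        (fun i j q => am c j (Lq i q)) (fun i j q => gm c m j (Lq i q))
      intro i hi q hq
      exact sum_neg hS hc hi (dropMax_sub (hb i _ q hq))
    · apply repl m (fun i => (V z i).powersetCard (r + 1)) (fun i q => bm c i q)
        (fun i j q => bm c j (Rq i q)) (fun i j q => gm c m j (Rq i q))
      intro i hi q hq
      exact sum_pos hS hc hi (dropMin_sub (hb i _ q hq))
  · apply repl m (fun i => (V z i).powersetCard r)
      (fun i q => c (insert (-((i : ℤ) + 1)) (insert ((i : ℤ) + 1) q)))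
      (fun i j q => am c j (insert (-((i : ℤ) + 1)) q) - bm c j (insert ((i : ℤ) + 1) q))
      (fun i j q => gm c m j (insert (-((i : ℤ) + 1)) q) - gm c m j (insert ((i : ℤ) + 1) q))
    intro i hi q hq
    show ∑ j ∈ Ico (i + 1) m,
        (am c j (insert (-((i : ℤ) + 1)) q) - bm c j (insert ((i : ℤ) + 1) q)) =
      ∑ j ∈ Ico (i + 1) m,
        (gm c m j (insert (-((i : ℤ) + 1)) q) - gm c m j (insert ((i : ℤ) + 1) q))
    rw [sum_sub_distrib, sum_sub_distrib, sum_neg hS hc hi (hb i _ q hq),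
      sum_pos hS hc hi (hb i _ q hq)]

/-- the comparison with F r of the truncated function -/
theorem compare (hV : J_V) (hD : J_DROP) (hP : J_PEEL) (z r j : ℕ) (hz : z ≤ 1)
    (c g : Finset ℤ → ℤ) (hc : ∀ K, |c K| ≤ 1) (hg : ∀ K, |g K| ≤ 1) :
    F r g (V z j) -
        (∑ i ∈ range j, ∑ q ∈ (V z i).powersetCard (r + 1), (2 - g q * (am c i q + bm c i q)) +
          ∑ i ∈ range j, (((2 * i + z).choose r : ℕ) : ℤ)) ≤
      ∑ i ∈ range j, ∑ q ∈ (V z i).powersetCard (r + 1), am c i q * g (Lq i q) +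
      ∑ i ∈ range j, ∑ q ∈ (V z i).powersetCard (r + 1), bm c i q * g (Rq i q) +
      ∑ i ∈ range j, ∑ q ∈ (V z i).powersetCard r,
        c (insert (-((i : ℤ) + 1)) (insert ((i : ℤ) + 1) q)) *
          (g (insert (-((i : ℤ) + 1)) q) - g (insert ((i : ℤ) + 1) q)) := by
  rw [expandF hV hD hP, ← sum_add_distrib, ← sum_add_distrib, ← sum_add_distrib,
    ← sum_sub_distrib]
  apply sum_le_sum
  intro i _
  have h1 : ∑ q ∈ (V z i).powersetCard (r + 1), g q * (g (Lq i q) + g (Rq i q)) -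
      ∑ q ∈ (V z i).powersetCard (r + 1), (2 - g q * (am c i q + bm c i q)) ≤
      ∑ q ∈ (V z i).powersetCard (r + 1), am c i q * g (Lq i q) +
      ∑ q ∈ (V z i).powersetCard (r + 1), bm c i q * g (Rq i q) := by
    rw [← sum_sub_distrib, ← sum_add_distrib]
    apply sum_le_sum
    intro q _
    have ha : |am c i q| ≤ 1 := hc _
    have hb : |bm c i q| ≤ 1 := by unfold bm; rw [abs_neg]; exact hc _
    have p1 := pw1 ha (hg q) (hg (Lq i q))
    have p2 := pw1 hb (hg q) (hg (Rq i q))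
    linarith
  have h2 : ∑ q ∈ (V z i).powersetCard r,
        g (insert (-((i : ℤ) + 1)) q) * g (insert ((i : ℤ) + 1) q) -
      (((2 * i + z).choose r : ℕ) : ℤ) ≤
      ∑ q ∈ (V z i).powersetCard r,
        c (insert (-((i : ℤ) + 1)) (insert ((i : ℤ) + 1) q)) *
          (g (insert (-((i : ℤ) + 1)) q) - g (insert ((i : ℤ) + 1) q)) := by
    have h3 : (((2 * i + z).choose r : ℕ) : ℤ) = ∑ q ∈ (V z i).powersetCard r, (1 : ℤ) := by
      rw [sum_const, card_powersetCard, hV.1 z i hz]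
      simp
    rw [h3, ← sum_sub_distrib]
    apply sum_le_sum
    intro q _
    have p3 := pw2 (hc (insert (-((i : ℤ) + 1)) (insert ((i : ℤ) + 1) q)))
      (hg (insert (-((i : ℤ) + 1)) q)) (hg (insert ((i : ℤ) + 1) q))
    linarith
  linarith

theorem prodsum (f h : ℕ → ℤ) (a m : ℕ) (ham : a ≤ m) :
    (∑ j ∈ Ico a m, f j) * (∑ j ∈ Ico a m, h j) =
      ∑ j ∈ Ico a m, ∑ i ∈ Ico a j, (f i * h j + h i * f j) + ∑ j ∈ Ico a m, f j * h j := by
  induction m, ham using Nat.le_induction with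
  | base => simp
  | succ m ham ih =>
    rw [sum_Ico_succ_top ham, sum_Ico_succ_top ham, sum_Ico_succ_top ham, sum_Ico_succ_top ham,
      sum_add_distrib, ← sum_mul, ← sum_mul]
    linear_combination ih

theorem sqsum (m a : ℕ) (ham : a ≤ m) :
    ((m : ℤ) - a) ^ 2 = ∑ i ∈ Ico a m, (2 * ((m : ℤ) - 1 - i) + 1) := by
  induction m, ham using Nat.le_induction with
  | base => simp
  | succ m ham ih =>
    rw [sum_Ico_succ_top ham]
    have h : ∑ i ∈ Ico a m, (2 * (((m + 1 : ℕ) : ℤ) - 1 - i) + 1) =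
        ∑ i ∈ Ico a m, (2 * ((m : ℤ) - 1 - i) + 1) + 2 * ((m : ℤ) - a) := by
      have h2 : ∑ i ∈ Ico a m, (2 : ℤ) = 2 * ((m : ℤ) - a) := by
        rw [sum_const, Nat.card_Ico, nsmul_eq_mul, Nat.cast_sub ham]
        ring
      rw [← h2, ← sum_add_distrib]
      apply sum_congr rfl
      intro i _
      push_cast
      ring
    rw [h, ← ih]
    push_cast
    ring

theorem step (hV : J_V) (hD : J_DROP) (hP : J_PEEL) (hS : J_SEQ) (z r : ℕ) (hz : z ≤ 1)
    (IH : ∀ (m : ℕ) (c : Finset ℤ → ℤ), (∀ K, |c K| ≤ 1) → -(Phi z r m) ≤ F r c (V z m))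
    (m : ℕ) (c : Finset ℤ → ℤ) (hc : ∀ K, |c K| ≤ 1) :
    -(Phi z (r + 1) m) ≤ F (r + 1) c (V z m) := by
  rw [five' hV hD hP hS z r m c hc]
  have hg : ∀ j K, |gm c m j K| ≤ 1 := fun j K => abs_trunc _ _ _
  have k1 : ∀ j ∈ range m, -(Phi z r j) -
        (∑ i ∈ range j, ∑ q ∈ (V z i).powersetCard (r + 1),
          (2 - gm c m j q * (am c i q + bm c i q)) +
          ∑ i ∈ range j, (((2 * i + z).choose r : ℕ) : ℤ)) ≤
      ∑ i ∈ range j, ∑ q ∈ (V z i).powersetCard (r + 1), am c i q * gm c m j (Lq i q) +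
      ∑ i ∈ range j, ∑ q ∈ (V z i).powersetCard (r + 1), bm c i q * gm c m j (Rq i q) +
      ∑ i ∈ range j, ∑ q ∈ (V z i).powersetCard r,
        c (insert (-((i : ℤ) + 1)) (insert ((i : ℤ) + 1) q)) *
          (gm c m j (insert (-((i : ℤ) + 1)) q) - gm c m j (insert ((i : ℤ) + 1) q)) := by
    intro j _
    have h1 := compare hV hD hP z r j hz c (gm c m j) hc (hg j)
    have h2 := IH j (gm c m j) (hg j)
    linarith
  have k2 := sum_le_sum k1
  rw [sum_add_distrib, sum_add_distrib, sum_sub_distrib, sum_add_distrib, sum_neg_distrib,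
    swap2 hV] at k2
  rw [swap2 hV z (r + 1) m (fun i j q => am c i q * bm c j q + bm c i q * am c j q),
    swap1 hV z (r + 1) m (fun j q => am c j q * bm c j q)]
  have k3 : ∑ q ∈ (V z m).powersetCard (r + 1),
      (∑ j ∈ Ico (rad q) m, ∑ i ∈ Ico (rad q) j, (am c i q * bm c j q + bm c i q * am c j q) +
        ∑ i ∈ Ico (rad q) m, am c i q * bm c i q) +
      ∑ q ∈ (V z m).powersetCard (r + 1), ∑ j ∈ Ico (rad q) m, ∑ i ∈ Ico (rad q) j,
        (2 - gm c m j q * (am c i q + bm c i q)) ≤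
      ∑ i ∈ range m, (2 * ((m : ℤ) - 1 - i) + 1) * ((2 * i + z).choose (r + 1) : ℕ) := by
    have h1 : ∑ i ∈ range m, (2 * ((m : ℤ) - 1 - i) + 1) * ((2 * i + z).choose (r + 1) : ℕ) =
        ∑ q ∈ (V z m).powersetCard (r + 1), ((m : ℤ) - rad q) ^ 2 := by
      have h2 : ∑ q ∈ (V z m).powersetCard (r + 1), ((m : ℤ) - rad q) ^ 2 =
          ∑ q ∈ (V z m).powersetCard (r + 1), ∑ i ∈ Ico (rad q) m, (2 * ((m : ℤ) - 1 - i) + 1) := by
        apply sum_congr rfl
        intro q hq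
        rw [mem_powersetCard] at hq
        exact sqsum m (rad q) ((sub_iff le_rfl hq.1).1 hq.1)
      rw [h2, ← swap1 hV z (r + 1) m (fun i _ => (2 * ((m : ℤ) - 1 - i) + 1))]
      apply sum_congr rfl
      intro i _
      rw [sum_const, card_powersetCard, hV.1 z i hz, nsmul_eq_mul]
      ring
    rw [h1, ← sum_add_distrib]
    apply sum_le_sum
    intro q hq
    rw [mem_powersetCard] at hq
    have hr : rad q ≤ m := (sub_iff le_rfl hq.1).1 hq.1
    have hN : Nm c m q = ∑ j ∈ Ico (rad q) m, am c j q ∨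
        Nm c m q = ∑ j ∈ Ico (rad q) m, bm c j q := by
      unfold Nm
      split_ifs
      · right; rfl
      · left; rfl
    have h5 := (hS m (rad q) (fun j => am c j q) (fun j => bm c j q) (Nm c m q) hr
      (fun j => hc _) (fun j => by unfold bm; rw [abs_neg]; exact hc _) hN).2
    rw [prodsum _ _ _ _ hr] at h5
    exact h5
  have k4 : ∑ j ∈ range m, ∑ i ∈ range j, (((2 * i + z).choose r : ℕ) : ℤ) =
      ∑ i ∈ range m, ((m : ℤ) - 1 - i) * ((2 * i + z).choose r : ℕ) := by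
    rw [swapij]
    apply sum_congr rfl
    intro i hi
    rw [mem_range] at hi
    rw [sum_const, Nat.card_Ico, nsmul_eq_mul, Nat.cast_sub hi]
    push_cast
    ring
  have k5 : Phi z (r + 1) m =
      ∑ i ∈ range m, (2 * ((m : ℤ) - 1 - i) + 1) * ((2 * i + z).choose (r + 1) : ℕ) +
      ∑ i ∈ range m, ((m : ℤ) - 1 - i) * ((2 * i + z).choose r : ℕ) +
      ∑ i ∈ range m, Phi z r i := by
    rw [← sum_add_distrib, ← sum_add_distrib]
    rfl
  rw [k5]
  rw [k4] at k2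
  rw [sum_add_distrib] at k3
  linarith

end Pool.Agent.Q160.SG
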