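import Mathlib

/-!
# Two-colourings of the (k-1)-subsets of a linearly ordered set: the number of k-subsets K such that
K without its largest element and K without its smallest element get the same colour

Project SG of helper160.  The theorem: for every colouring of the (k-1)-subsets of n points with two
colours the number of such K is at least C(floor(n/2),k) + C(ceil(n/2),k), and this is sharp (max cut
of the shift graphs; Turan bound for K_(2k-1)^k in the class of k-graphs encoded by such colourings).

Induction on k for functions with values in {-1,0,1}; k = r + 2.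
-/

namespace Pool.Agent.Q160.SG

open Finset

/-- the set without its largest element -/
def dropMax {α : Type} [LinearOrder α] (K : Finset α) : Finset α :=
  K.filter (fun x => ∃ y ∈ K, x < y)

/-- the set without its smallest element -/
def dropMin {α : Type} [LinearOrder α] (K : Finset α) : Finset α :=
  K.filter (fun x => ∃ y ∈ K, y < x)

/-- sum over the (r+2)-subsets K of W of c(K without max) * c(K without min) -/
def F {α : Type} [LinearOrder α] (r : ℕ) (c : Finset α → ℤ) (W : Finset α) : ℤ :=
  ∑ K ∈ W.powersetCard (r + 2), c (dropMax K) * c (dropMin K)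

/-- the integers x with -m ≤ x ≤ m, where 0 belongs to the set only if z = 1;
it has 2 m + z elements if z ≤ 1 -/
noncomputable def V (z m : ℕ) : Finset ℤ := (Finset.Icc (-(m : ℤ)) m).filter (fun x => x = 0 → z = 1)

/-- the bound, as a sum over the levels -/
def Phi (z : ℕ) : ℕ → ℕ → ℤ
  | 0 => fun m => m
  | (r + 1) => fun m => ∑ i ∈ range m,
      ((2 * ((m : ℤ) - 1 - i) + 1) * ((2 * i + z).choose (r + 1) : ℕ) +
        ((m : ℤ) - 1 - i) * ((2 * i + z).choose r : ℕ) + Phi z r i)

/-- the number N written as a sequence: sign N at the last |N| places j < m, and 0 before -/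
def trunc (m : ℕ) (N : ℤ) (j : ℕ) : ℤ := if ((m : ℤ) - 1 - j) < |N| then N.sign else 0

/-- JOB V.  (1) card (V z m) = 2 m + z for z ≤ 1.  (2) V z (m+1) is V z m with the two further
elements -(m+1) and m+1. (3) all elements of V z m have absolute value at most m. (4) V z 0 has at
most one element. (5) V is monotone in m. -/
def J_V : Prop :=
  (∀ z m : ℕ, z ≤ 1 → (V z m).card = 2 * m + z) ∧
  (∀ z m : ℕ, V z (m + 1) = insert (-((m : ℤ) + 1)) (insert ((m : ℤ) + 1) (V z m))) ∧
  (∀ z m : ℕ, ∀ x ∈ V z m, |x| ≤ (m : ℤ)) ∧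
  (∀ z : ℕ, (V z 0).card ≤ 1) ∧
  (∀ z m m' : ℕ, m ≤ m' → V z m ⊆ V z m')

/-- JOB DROP.  q is a finite set of integers of absolute value at most i, N = i + 1 (so -N is smaller
and N is larger than all elements of q). -/
def J_DROP : Prop := ∀ (i : ℕ) (q : Finset ℤ), (∀ x ∈ q, |x| ≤ (i : ℤ)) →
  dropMin (insert (-((i : ℤ) + 1)) q) = q ∧
  dropMax (insert ((i : ℤ) + 1) q) = q ∧
  (q.Nonempty → dropMax (insert (-((i : ℤ) + 1)) q) = insert (-((i : ℤ) + 1)) (dropMax q)) ∧
  (q.Nonempty → dropMin (insert ((i : ℤ) + 1) q) = insert ((i : ℤ) + 1) (dropMin q)) ∧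
  dropMax (insert (-((i : ℤ) + 1)) (insert ((i : ℤ) + 1) q)) = insert (-((i : ℤ) + 1)) q ∧
  dropMin (insert (-((i : ℤ) + 1)) (insert ((i : ℤ) + 1) q)) = insert ((i : ℤ) + 1) q

/-- JOB PEEL.  The (r+2)-subsets K of V z m, sorted by their radius i + 1 = max |x|, x in K
(0 ≤ i < m; the radius is at least 1 as K has at least two elements and V z 0 at most one): K is
either a (r+1)-subset of V z i with -(i+1), or such a set with i+1, or an r-subset of V z i with both.
Proof: induction on m with J_V (2): the (r+2)-subsets of V z (m+1) are the (r+2)-subsets of V z m,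
the sets insert (-(m+1)) q and insert (m+1) q (q an (r+1)-subset of V z m) and
insert (-(m+1)) (insert (m+1) q) (q an r-subset of V z m) (Finset.powersetCard_succ_insert twice,
the sums over the images by injectivity of insert on sets not containing the element). -/
def J_PEEL : Prop := ∀ (z r m : ℕ) (f : Finset ℤ → ℤ),
  ∑ K ∈ (V z m).powersetCard (r + 2), f K = ∑ i ∈ range m,
    (∑ q ∈ (V z i).powersetCard (r + 1),
        (f (insert (-((i : ℤ) + 1)) q) + f (insert ((i : ℤ) + 1) q)) +
      ∑ q ∈ (V z i).powersetCard r, f (insert (-((i : ℤ) + 1)) (insert ((i : ℤ) + 1) q)))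

/-- JOB SEQ.  Put H = m - i0, A = sum of the a j, S = sum of the B j over i0 ≤ j < m, so |N| ≤ H.
First part: trunc m N j is sign N for the |N| indices j with m - |N| ≤ j < m (all are ≥ i0) and 0 for
the other ones.  Second part: put R_j = sum of a i + B i over i0 ≤ i < j; then R_m = A + S and
|R_m - R_j| ≤ 2 (m - j).  So sum_j trunc m N j * R_j = sign N * (sum of R_j over m - |N| ≤ j < m)
≥ N R_m - sum_{u=1}^{|N|} 2 u = N R_m - N^2 - |N|, and N R_m - N^2 = A S, both for N = A and for
N = S.  Hence the left side is A S + H (H - 1) - sum_j trunc m N j R_j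
≤ A S + H (H - 1) - A S + |N| ≤ H^2. -/
def J_SEQ : Prop := ∀ (m i0 : ℕ) (a B : ℕ → ℤ) (N : ℤ), i0 ≤ m → (∀ j, |a j| ≤ 1) →
  (∀ j, |B j| ≤ 1) → (N = ∑ j ∈ Ico i0 m, a j ∨ N = ∑ j ∈ Ico i0 m, B j) →
  (∑ j ∈ Ico i0 m, trunc m N j = N) ∧
  (∑ j ∈ Ico i0 m, a j) * (∑ j ∈ Ico i0 m, B j) +
    ∑ j ∈ Ico i0 m, ∑ i ∈ Ico i0 j, (2 - trunc m N j * (a i + B i)) ≤ ((m : ℤ) - i0) ^ 2

/-- JOB BASE.  For r = 0: F 0 c W is the sum over the pairs x < y of W of c {x} * c {y}, so
2 F = S^2 - Q with S = sum of c {x}, Q = sum of c {x}^2 over x in W.  All c {x} are in {-1,0,1}, so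
Q ≤ n = card W.  If n is even then 2 F ≥ - n.  If n is odd: if Q ≤ n - 1 then 2 F ≥ -(n - 1);
otherwise Q = n, all c {x} are odd, S is odd (sum of an odd number of odd numbers), S^2 ≥ 1 and
2 F ≥ 1 - n. -/
def J_BASE : Prop := ∀ (α : Type) [LinearOrder α] (W : Finset α) (c : Finset α → ℤ),
  (∀ K, |c K| ≤ 1) → -((W.card / 2 : ℕ) : ℤ) ≤ F 0 c W

/-- the main bound on V z m -/
def J_MAIN : Prop := ∀ (z r m : ℕ) (c : Finset ℤ → ℤ), z ≤ 1 → (∀ K, |c K| ≤ 1) →
  -(Phi z r m) ≤ F r c (V z m)

/-- JOB CLOSED.  Closed form of the bound (checked by computer for r ≤ 7, m ≤ 11).  One way: with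
n = 2 m + z let P r m be the right side and D r m = P r (m+1) - P r m.  From the definition
Phi z (r+1) (m+1) - Phi z (r+1) m =
  (sum over i < m of 2 C(2i+z, r+1) + C(2i+z, r)) + C(2m+z, r+1) + Phi z r m,
and the difference of this in m is
  2 C(2m+z, r+1) + C(2m+z, r) + C(2m+2+z, r+1) - C(2m+z, r+1) + (Phi z r (m+1) - Phi z r m).
So it is enough (induction on r, and on m twice) that P has the same values at m = 0, 1 and the same
second differences, which is Pascal's rule. -/
def J_CLOSED : Prop := ∀ z r m : ℕ, z ≤ 1 →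
  Phi z r m = ((2 * m + z).choose (r + 2) : ℕ) - 2 * ((m.choose (r + 2) : ℕ) : ℤ) -
    2 * (((m + z).choose (r + 2) : ℕ) : ℤ)

/-- JOB TRANSFER.  Take z = n % 2, m = n / 2 with n = card W, so that V z m has n elements (J_V),
and the increasing bijection from V z m onto W (Finset.orderIsoOfFin); extend it to a map phi on the
integers, put c' K = c (K.image phi).  For K inside V z m one has
dropMax (K.image phi) = (dropMax K).image phi, same for dropMin, and K -> K.image phi is a bijection
between the (r+2)-subsets of V z m and those of W. -/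
def J_TRANSFER : Prop := J_V → J_MAIN → J_CLOSED →
  ∀ (α : Type) [LinearOrder α] (W : Finset α) (r : ℕ) (c : Finset α → ℤ), (∀ K, |c K| ≤ 1) →
    2 * (((W.card / 2).choose (r + 2) : ℕ) : ℤ) + 2 * ((((W.card + 1) / 2).choose (r + 2) : ℕ) : ℤ)
      - ((W.card.choose (r + 2) : ℕ) : ℤ) ≤ F r c W

/-- the k-subsets K of W such that K without its largest element and K without its smallest element
have the same colour -/
def mono {α : Type} [LinearOrder α] (k : ℕ) (c : Finset α → Bool) (W : Finset α) :
    Finset (Finset α) :=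
  (W.powersetCard k).filter (fun K => c (dropMax K) = c (dropMin K))

/-- JOB COUNT.  F of the sign function is 2 (number of monochromatic K) - C(n, k). -/
def J_COUNT : Prop := ∀ (α : Type) [LinearOrder α] (W : Finset α) (r : ℕ) (c : Finset α → Bool),
  F r (fun K => if c K then 1 else -1) W =
    2 * ((mono (r + 2) c W).card : ℤ) - ((W.card.choose (r + 2) : ℕ) : ℤ)

/-- JOB LOWER.  c S = parity of the number of elements x < n/2 of S.  If K has both elements < n/2
(left) and elements ≥ n/2 (right) then dropping the largest element keeps the number of left elements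
and dropping the smallest one lowers it by one, so K is not monochromatic; if K is inside one side
it is monochromatic. -/
def J_LOWER : Prop := ∀ n k : ℕ, 2 ≤ k → ∃ c : Finset (Fin n) → Bool,
  (mono k c univ).card = (n / 2).choose k + ((n + 1) / 2).choose k

/-- twice the signed area of the triangle of the points a, b, c: positive iff the slope of bc is
larger than the slope of ab (for x a < x b < x c) -/
def area {n : ℕ} (x y : Fin n → ℝ) (a b c : Fin n) : ℝ :=
  (x b - x a) * (y c - y b) - (y b - y a) * (x c - x b)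

/-- the number of 4-cups and 4-caps: quadruples a < b < c < d of points in convex position whose
consecutive slopes increase, or decrease -/
noncomputable def cupsCaps {n : ℕ} (x y : Fin n → ℝ) : ℕ :=
  Nat.card {p : Fin n × Fin n × Fin n × Fin n // p.1 < p.2.1 ∧ p.2.1 < p.2.2.1 ∧
    p.2.2.1 < p.2.2.2 ∧
    ((0 < area x y p.1 p.2.1 p.2.2.1 ∧ 0 < area x y p.2.1 p.2.2.1 p.2.2.2) ∨
     (area x y p.1 p.2.1 p.2.2.1 < 0 ∧ area x y p.2.1 p.2.2.1 p.2.2.2 < 0))}

/-- JOB CUPS.  (1) apply the bound on mono for k = 4, W = univ, to the colouring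
c {a<b<c'} = decide (0 < area x y a b c') of the triples (any colour for other sets): the
monochromatic quadruples correspond to the cups and caps (no area is 0).
(2) Equality: x i = i, and y i = i^2 for i < n/2, y i = -i^2 - n^2 for i ≥ n/2.  Left triples have
positive area, right triples negative area; two left points i < j and a right point w: w is below
the line ij (slope i+j > 0 or = , height at w is ≥ 0 > y w): negative; one left point i and right
points v < w: i is above the line vw, whose height at i is -n^2 + v w - (v+w) i < 0: positive.  So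
a quadruple with at least one point on each side has areas of different signs, and the quadruples
inside one side are cups resp. caps. -/
def J_CUPS : Prop :=
  (∀ (n : ℕ) (c : Finset (Fin n) → Bool),
    (n / 2).choose 4 + ((n + 1) / 2).choose 4 ≤ (mono 4 c univ).card) →
  (∀ (n : ℕ) (x y : Fin n → ℝ), StrictMono x → (∀ a b c, a < b → b < c → area x y a b c ≠ 0) →
    (n / 2).choose 4 + ((n + 1) / 2).choose 4 ≤ cupsCaps x y) ∧
  (∀ n : ℕ, ∃ x y : Fin n → ℝ, StrictMono x ∧ (∀ a b c, a < b → b < c → area x y a b c ≠ 0) ∧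
    cupsCaps x y = (n / 2).choose 4 + ((n + 1) / 2).choose 4)

end Pool.Agent.Q160.SG
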